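import Pool.Agent.Helper7.FAM.Heights
import Pool.Agent.Helper8.FAM.Q0
import Pool.Agent.Helper61.FAM.Q2

/-!
# Project FAM, piece Q3: heights on a function field
-/

namespace Pool.Agent.Helper7.FAM

open Polynomial Pool.Agent.Helper16.FAM

universe u

/-- Q3: heights on a function field. -/
theorem exists_heights {k L : Type u} [Field k] [CharZero k] [Field L] [Algebra k L] {t : L}
    (h : IsFF k L t) :
    ∃ inst : Height.AdmissibleAbsValues L, inst.archAbsVal = 0 ∧
      (∀ v ∈ inst.nonarchAbsVal, ∀ a : k, a ≠ 0 → v (algebraMap k L a) = 1) ∧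
      1 < Height.mulHeight₁ t :=
  exists_heights_of (fun δ hδ => Pool.Agent.Helper8.FAM.ideal_hom δ hδ)
    (fun h D hD => Pool.Agent.Helper61.FAM.chart h D hD) h

end Pool.Agent.Helper7.FAM
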