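import Pool.Agent.Helper16.FAM.Defs

/-!
# Project FAM, piece Q3: heights on a function field
-/

namespace Pool.Agent.Helper7.FAM

open Polynomial Pool.Agent.Helper16.FAM

universe u

section aux

variable {k : Type u} [Field k]

open Classical in
/-- The function `f ↦ 2 ^ (-deg f)`. -/
noncomputable def del1 (k : Type u) [Field k] : k[X] →*₀ ℝ where
  toFun f := if f = 0 then 0 else (1 / 2) ^ f.natDegree
  map_zero' := if_pos rfl
  map_one' := by rw [if_neg one_ne_zero, natDegree_one, pow_zero]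
  map_mul' f g := by
    by_cases hf : f = 0
    · simp [hf]
    · by_cases hg : g = 0
      · simp [hg]
      · rw [if_neg (mul_ne_zero hf hg), if_neg hf, if_neg hg, natDegree_mul hf hg, pow_add]

open Classical in
/-- The function `f ↦ 2 ^ (-ord_0 f)`. -/
noncomputable def del2 (k : Type u) [Field k] : k[X] →*₀ ℝ where
  toFun f := if f = 0 then 0 else (1 / 2) ^ f.rootMultiplicity 0
  map_zero' := if_pos rfl
  map_one' := by rw [if_neg one_ne_zero, ← C_1, rootMultiplicity_C, pow_zero]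
  map_mul' f g := by
    by_cases hf : f = 0
    · simp [hf]
    · by_cases hg : g = 0
      · simp [hg]
      · rw [if_neg (mul_ne_zero hf hg), if_neg hf, if_neg hg,
          rootMultiplicity_mul (mul_ne_zero hf hg), pow_add]

lemma del1_apply {f : k[X]} (hf : f ≠ 0) : del1 k f = (1 / 2) ^ f.natDegree := if_neg hf

lemma del2_apply {f : k[X]} (hf : f ≠ 0) : del2 k f = (1 / 2) ^ f.rootMultiplicity 0 := if_neg hf

lemma half_pow (n : ℕ) : (0 : ℝ) < (1 / 2) ^ n ∧ ((1 : ℝ) / 2) ^ n ≤ 1 :=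
  ⟨by positivity, pow_le_one₀ (by norm_num) (by norm_num)⟩

lemma ideal_bound (δ : k[X] →*₀ ℝ) (hδ : ∀ f, f ≠ 0 → 0 < δ f ∧ δ f ≤ 1)
    (D : Ideal k[X] →*₀ ℝ) (hD : ∀ f : k[X], D (Ideal.span {f}) = δ f) :
    ∀ I : Ideal k[X], I ≠ ⊥ → 0 < D I ∧ D I ≤ 1 := by
  intro I hI
  have h1 : Ideal.span {Submodule.IsPrincipal.generator I} = I :=
    Ideal.span_singleton_generator I
  have h2 : Submodule.IsPrincipal.generator I ≠ 0 := by
    intro h0
    rw [h0] at h1
    apply hI
    rw [← h1]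
    simp
  rw [← h1, hD]
  exact hδ _ h2

/-- Products over a union. -/
lemma finprod_union {L : Type u} [Field L] (V₁ V₂ : Set (AbsoluteValue L ℝ))
    (hd : Disjoint V₁ V₂) (g : AbsoluteValue L ℝ → ℝ)
    (h1 : (fun v : V₁ => g v.val).HasFiniteMulSupport)
    (h2 : (fun v : V₂ => g v.val).HasFiniteMulSupport) :
    (fun v : (V₁ ∪ V₂ : Set (AbsoluteValue L ℝ)) => g v.val).HasFiniteMulSupport ∧
      ∏ᶠ v : (V₁ ∪ V₂ : Set (AbsoluteValue L ℝ)), g v.val =
        (∏ᶠ v : V₁, g v.val) * ∏ᶠ v : V₂, g v.val := by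
  have key : ∀ V : Set (AbsoluteValue L ℝ), (fun v : V => g v.val).HasFiniteMulSupport ↔
      (V ∩ Function.mulSupport g).Finite := by
    intro V
    have h3 : V ∩ Function.mulSupport g =
        Subtype.val '' Function.mulSupport (fun v : V => g v.val) := by
      ext v
      constructor
      · rintro ⟨hv, hg⟩
        exact ⟨⟨v, hv⟩, hg, rfl⟩
      · rintro ⟨⟨v', hv'⟩, hg, rfl⟩
        exact ⟨hv', hg⟩
    rw [h3, Set.finite_image_iff Subtype.val_injective.injOn]
    rfl
  rw [key] at h1 h2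
  constructor
  · rw [key, Set.union_inter_distrib_right]
    exact h1.union h2
  · rw [finprod_set_coe_eq_finprod_mem, finprod_set_coe_eq_finprod_mem,
      finprod_set_coe_eq_finprod_mem]
    exact finprod_mem_union' hd h1 h2

/-- Norms over equal intermediate fields. -/
lemma norm_eq_of_eq {L : Type u} [Field L] [Algebra k L] {F F' : IntermediateField k L}
    (h : F = F') (x : L) :
    algebraMap F L (Algebra.norm F x) = algebraMap F' L (Algebra.norm F' x) := by
  subst h
  rfl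

lemma adjoin_inv {L : Type u} [Field L] [Algebra k L] (t : L) :
    IntermediateField.adjoin k {t⁻¹} = IntermediateField.adjoin k {t} := by
  apply le_antisymm
  · rw [IntermediateField.adjoin_simple_le_iff]
    exact inv_mem (IntermediateField.mem_adjoin_simple_self k t)
  · rw [IntermediateField.adjoin_simple_le_iff]
    have := inv_mem (IntermediateField.mem_adjoin_simple_self k t⁻¹)
    rwa [inv_inv] at this

lemma isFF_inv {L : Type u} [Field L] [Algebra k L] {t : L} (h : IsFF k L t) : IsFF k L t⁻¹ := by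
  refine ⟨?_, ?_⟩
  · intro halg
    exact h.tr (IsAlgebraic.inv_iff.1 halg)
  · have h1 := h.fin
    rw [← adjoin_inv t] at h1
    exact h1

/-- Elements of `k(t)` are quotients of polynomials in `t`. -/
lemma exists_quot {L : Type u} [Field L] [Algebra k L] {t : L} {y : L}
    (hy : y ∈ IntermediateField.adjoin k {t}) (hy0 : y ≠ 0) :
    ∃ a b : k[X], a ≠ 0 ∧ b ≠ 0 ∧ y * aeval t b = aeval t a := by
  rw [IntermediateField.mem_adjoin_simple_iff] at hy
  obtain ⟨a, b, rfl⟩ := hy
  have ha : aeval t a ≠ 0 := by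
    intro h0
    rw [h0, zero_div] at hy0
    exact hy0 rfl
  have hb : aeval t b ≠ 0 := by
    intro h0
    rw [h0, div_zero] at hy0
    exact hy0 rfl
  refine ⟨a, b, ?_, ?_, div_mul_cancel₀ _ hb⟩
  · rintro rfl
    exact ha (map_zero _)
  · rintro rfl
    exact hb (map_zero _)

/-- `t⁻¹ ^ deg a * a(t) = (reverse a)(t⁻¹)`. -/
lemma aeval_reverse {L : Type u} [Field L] [Algebra k L] {t : L} (ht : t ≠ 0) (a : k[X]) :
    aeval t⁻¹ (reverse a) = t⁻¹ ^ a.natDegree * aeval t a := by
  let _ : Invertible t := invertibleOfNonzero ht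
  have h1 := eval₂_reverse_mul_pow (algebraMap k L) t a
  rw [invOf_eq_inv] at h1
  rw [aeval_def, aeval_def, ← h1, inv_pow]
  field_simp

lemma rootMult_reverse {a : k[X]} (ha : a ≠ 0) (n : ℕ) :
    (X ^ n * reverse a).rootMultiplicity 0 = n := by
  have h1 : reverse a ≠ 0 := by
    rwa [Ne, reverse_eq_zero]
  have h2 : (X ^ n : k[X]) ≠ 0 := pow_ne_zero _ X_ne_zero
  rw [rootMultiplicity_mul (mul_ne_zero h2 h1)]
  have h3 : (reverse a).rootMultiplicity 0 = 0 := by
    rw [rootMultiplicity_eq_zero_iff]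
    intro h4
    exfalso
    rw [IsRoot, ← coeff_zero_eq_eval_zero, coeff_zero_reverse, leadingCoeff_eq_zero] at h4
    exact ha h4
  have h4 : (X ^ n : k[X]).rootMultiplicity 0 = n := by
    have := rootMultiplicity_X_sub_C_pow (0 : k) n
    rwa [C_0, sub_zero] at this
  rw [h3, h4, add_zero]

end aux

/-- FAM-Q3 from FAM-Q0 and FAM-Q2. -/
theorem exists_heights_of
    (hQ0 : ∀ {R : Type u} [CommRing R] [IsDomain R] [IsPrincipalIdealRing R]
      (δ : R →*₀ ℝ), (∀ u : R, IsUnit u → δ u = 1) →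
      ∃ D : Ideal R →*₀ ℝ, ∀ f : R, D (Ideal.span {f}) = δ f)
    (hQ2 : ∀ {k L : Type u} [Field k] [CharZero k] [Field L] [Algebra k L] {t : L},
      IsFF k L t → ∀ (D : Ideal k[X] →*₀ ℝ), (∀ I : Ideal k[X], I ≠ ⊥ → 0 < D I ∧ D I ≤ 1) →
      ∃ V : Set (AbsoluteValue L ℝ), (∀ v ∈ V, IsNonarchimedean v) ∧
      (∀ v ∈ V, ∀ a : k, a ≠ 0 → v (algebraMap k L a) = 1) ∧ (∀ v ∈ V, v t ≤ 1) ∧
      (∀ v ∈ V, ∃ f : k[X], Irreducible f ∧ D (Ideal.span {f}) < 1 ∧ v (aeval t f) < 1) ∧
      (∀ x : L, x ≠ 0 → (fun v : V => v.val x).HasFiniteMulSupport) ∧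
      ∀ (x : L) (a b : k[X]), x ≠ 0 → a ≠ 0 → b ≠ 0 →
        algebraMap (IntermediateField.adjoin k {t}) L
          (Algebra.norm (IntermediateField.adjoin k {t}) x) * aeval t b = aeval t a →
        (∏ᶠ v : V, v.val x) * D (Ideal.span {b}) = D (Ideal.span {a}))
    {k L : Type u} [Field k] [CharZero k] [Field L] [Algebra k L] {t : L}
    (h : IsFF k L t) :
    ∃ inst : Height.AdmissibleAbsValues L, inst.archAbsVal = 0 ∧
      (∀ v ∈ inst.nonarchAbsVal, ∀ a : k, a ≠ 0 → v (algebraMap k L a) = 1) ∧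
      1 < Height.mulHeight₁ t := by
  classical
  have ht0 : t ≠ 0 := by
    rintro rfl
    exact h.tr isAlgebraic_zero
  have hfin := h.fin
  have hfin' := (isFF_inv h).fin
  -- the two charts
  obtain ⟨D₁, hD₁⟩ := hQ0 (del1 k) (by
    intro f hf
    rw [del1_apply hf.ne_zero, natDegree_eq_zero_of_isUnit hf, pow_zero])
  obtain ⟨D₂, hD₂⟩ := hQ0 (del2 k) (by
    intro f hf
    rw [del2_apply hf.ne_zero]
    obtain ⟨r, -, hr⟩ := isUnit_iff.1 hf
    rw [← hr, rootMultiplicity_C, pow_zero])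
  obtain ⟨V₁, hna₁, hk₁, ht₁, -, hf₁, hp₁⟩ := hQ2 h D₁ (ideal_bound (del1 k) (fun f hf => by
    rw [del1_apply hf]
    exact half_pow _) D₁ hD₁)
  obtain ⟨V₂, hna₂, hk₂, ht₂, hX₂, hf₂, hp₂⟩ := hQ2 (isFF_inv h) D₂
    (ideal_bound (del2 k) (fun f hf => by
      rw [del2_apply hf]
      exact half_pow _) D₂ hD₂)
  -- the second chart is where `t` has a pole
  have hlt : ∀ v ∈ V₂, 1 < v t := by
    intro v hv
    obtain ⟨f, hf, hf1, hf2⟩ := hX₂ v hv
    rw [hD₂, del2_apply hf.ne_zero] at hf1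
    have h1 : f.rootMultiplicity 0 ≠ 0 := by
      intro h0
      rw [h0, pow_zero] at hf1
      exact lt_irrefl _ hf1
    have h2 : IsRoot f 0 := by
      by_contra hcon
      exact h1 (rootMultiplicity_eq_zero hcon)
    have h3 : X ∣ f := by
      rw [X_dvd_iff, coeff_zero_eq_eval_zero]
      exact h2
    obtain ⟨g, hg⟩ := h3
    have h4 : IsUnit g := by
      rcases hf.isUnit_or_isUnit hg with h5 | h5
      · exact absurd h5 not_isUnit_X
      · exact h5
    obtain ⟨c, hc, hcg⟩ := isUnit_iff.1 h4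
    have hc0 : c ≠ 0 := hc.ne_zero
    rw [hg, map_mul, aeval_X, ← hcg, aeval_C, v.map_mul, hk₂ v hv c hc0, mul_one,
      map_inv₀] at hf2
    have h6 : 0 < v t := v.pos ht0
    exact (inv_lt_one₀ h6).1 hf2
  have hdisj : Disjoint V₁ V₂ := by
    rw [Set.disjoint_left]
    intro v h1 h2
    exact absurd (ht₁ v h1) (not_le.2 (hlt v h2))
  -- the norm of `x` in both charts
  have hnorm : ∀ x : L, algebraMap (IntermediateField.adjoin k {t⁻¹}) L
      (Algebra.norm (IntermediateField.adjoin k {t⁻¹}) x) =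
      algebraMap (IntermediateField.adjoin k {t}) L
      (Algebra.norm (IntermediateField.adjoin k {t}) x) := fun x => norm_eq_of_eq (adjoin_inv t) x
  have hprod : ∀ x : L, x ≠ 0 → (∏ᶠ v : V₁, v.val x) * ∏ᶠ v : V₂, v.val x = 1 := by
    intro x hx
    obtain ⟨y, hy⟩ : ∃ y, y = Algebra.norm (IntermediateField.adjoin k {t}) x := ⟨_, rfl⟩
    have hy0 : (y : L) ≠ 0 := by
      have : y ≠ 0 := by
        rw [hy]
        exact Algebra.norm_ne_zero_iff.2 hx
      exact_mod_cast this
    obtain ⟨a, b, ha, hb, hab⟩ := exists_quot y.2 hy0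
    have h1 := hp₁ x a b hx ha hb (by rw [← hy]; exact hab)
    rw [hD₁, hD₁, del1_apply ha, del1_apply hb] at h1
    have hra : reverse a ≠ 0 := by rwa [Ne, reverse_eq_zero]
    have hrb : reverse b ≠ 0 := by rwa [Ne, reverse_eq_zero]
    have hXa : (X ^ a.natDegree * reverse b : k[X]) ≠ 0 := mul_ne_zero (pow_ne_zero _ X_ne_zero) hrb
    have hXb : (X ^ b.natDegree * reverse a : k[X]) ≠ 0 := mul_ne_zero (pow_ne_zero _ X_ne_zero) hra
    have h2 := hp₂ x (X ^ b.natDegree * reverse a) (X ^ a.natDegree * reverse b) hx hXb hXa (by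
      rw [hnorm x, ← hy]
      simp only [map_mul, map_pow, aeval_X, aeval_reverse ht0]
      have h3 : algebraMap (IntermediateField.adjoin k {t}) L y = (y : L) := rfl
      rw [h3, ← hab]
      ring)
    rw [hD₂, hD₂, del2_apply hXa, del2_apply hXb, rootMult_reverse hb, rootMult_reverse ha] at h2
    have e1 : ((1 : ℝ) / 2) ^ a.natDegree ≠ 0 := (half_pow _).1.ne'
    have e2 : ((1 : ℝ) / 2) ^ b.natDegree ≠ 0 := (half_pow _).1.ne'
    have h5 : ((∏ᶠ v : V₁, v.val x) * ∏ᶠ v : V₂, v.val x) *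
        (((1 : ℝ) / 2) ^ a.natDegree * (1 / 2) ^ b.natDegree) =
        ((1 : ℝ) / 2) ^ a.natDegree * (1 / 2) ^ b.natDegree := by
      calc _ = ((∏ᶠ v : V₁, v.val x) * (1 / 2) ^ b.natDegree) *
            ((∏ᶠ v : V₂, v.val x) * (1 / 2) ^ a.natDegree) := by ring
        _ = _ := by rw [h1, h2]
    exact mul_right_cancel₀ (mul_ne_zero e1 e2) (by rw [h5, one_mul])
  let inst : Height.AdmissibleAbsValues L :=
    { archAbsVal := 0
      nonarchAbsVal := V₁ ∪ V₂
      isNonarchimedean := by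
        rintro v (hv | hv)
        · exact hna₁ v hv
        · exact hna₂ v hv
      hasFiniteMulSupport := fun {x} hx =>
        (finprod_union V₁ V₂ hdisj (fun v => v x) (hf₁ x hx) (hf₂ x hx)).1
      product_formula := fun {x} hx => by
        rw [Multiset.map_zero, Multiset.prod_zero, one_mul,
          (finprod_union V₁ V₂ hdisj (fun v => v x) (hf₁ x hx) (hf₂ x hx)).2, hprod x hx] }
  refine ⟨inst, rfl, ?_, ?_⟩
  · rintro v (hv | hv)
    · exact hk₁ v hv
    · exact hk₂ v hv
  · -- the height of `t`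
    have h1 : Height.mulHeight₁ t = ∏ᶠ v : (V₁ ∪ V₂ : Set (AbsoluteValue L ℝ)), max (v.val t) 1 := by
      rw [Height.mulHeight₁_eq]
      exact one_mul _
    have h2 : (fun v : V₁ => max (v.val t) 1) = fun _ => 1 :=
      funext fun v => max_eq_right (ht₁ v.1 v.2)
    have h3 : (fun v : V₂ => max (v.val t) 1) = fun v => v.val t :=
      funext fun v => max_eq_left (hlt v.1 v.2).le
    have h4 := (finprod_union V₁ V₂ hdisj (fun v => max (v t) 1) (by
      rw [h2]
      exact Function.hasFiniteMulSupport_fun_one) (by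
      rw [h3]
      exact hf₂ t ht0)).2
    rw [h1, h4, h2, h3, finprod_one, one_mul]
    -- the norm of `t`
    have h5 : algebraMap (IntermediateField.adjoin k {t⁻¹}) L
        (Algebra.norm (IntermediateField.adjoin k {t⁻¹}) t) =
        t ^ Module.finrank (IntermediateField.adjoin k {t⁻¹}) L := by
      have ht' : t ∈ IntermediateField.adjoin k {t⁻¹} := by
        rw [adjoin_inv]
        exact IntermediateField.mem_adjoin_simple_self k t
      have h6 := Algebra.norm_algebraMap (R := IntermediateField.adjoin k {t⁻¹}) (S := L)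
        (⟨t, ht'⟩ : IntermediateField.adjoin k {t⁻¹})
      have h7 : algebraMap (IntermediateField.adjoin k {t⁻¹}) L ⟨t, ht'⟩ = t := rfl
      rw [h7] at h6
      rw [h6, map_pow]
      rfl
    obtain ⟨n, hn⟩ : ∃ n, n = Module.finrank (IntermediateField.adjoin k {t⁻¹}) L := ⟨_, rfl⟩
    have hn0 : 0 < n := by
      rw [hn]
      exact Module.finrank_pos
    have h6 := hp₂ t 1 (X ^ n * reverse 1) ht0 one_ne_zero
      (mul_ne_zero (pow_ne_zero _ X_ne_zero) (by rw [Ne, reverse_eq_zero]; exact one_ne_zero)) (by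
      rw [h5, ← hn]
      simp only [map_mul, map_pow, aeval_X, aeval_reverse ht0, natDegree_one, pow_zero, map_one,
        mul_one]
      rw [← mul_pow, mul_inv_cancel₀ ht0, one_pow])
    rw [hD₂, hD₂, map_one, del2_apply
      (mul_ne_zero (pow_ne_zero _ X_ne_zero) (by rw [Ne, reverse_eq_zero]; exact one_ne_zero)),
      rootMult_reverse one_ne_zero] at h6
    have h7 : ((1 : ℝ) / 2) ^ n < 1 := pow_lt_one₀ (by norm_num) (by norm_num) hn0.ne'
    have h8 := half_pow n
    by_contra hcon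
    push Not at hcon
    have h9 : (∏ᶠ v : V₂, v.val t) * (1 / 2) ^ n ≤ 1 * (1 / 2) ^ n :=
      mul_le_mul_of_nonneg_right hcon h8.1.le
    rw [h6, one_mul] at h9
    linarith

end Pool.Agent.Helper7.FAM
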